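import Pool.Agent.P.MP_dd077d_co.Own.Main

namespace Pool.Agent.Results.MP_dd077d_co.SolidSub

open Pool.Agent.P.MP_dd077d_co.Own

/-- The solid subpackings of the triangular packing: a set of at least two of its disks is solid
iff at most one disk is missing iff its rearrangements are exactly its lattice translates. -/
theorem result (P : Set (Set ℂ)) (hP : P ⊆ triPacking) (h2 : P.Nontrivial) :
    List.TFAE [Solid P, (triPacking \ P).Subsingleton,
      ∀ Q, IsRearrangement P Q ↔ ∃ v ∈ lattice, Q = (fun D => (fun z => z + v) '' D) '' P] :=
  solid_tfae P hP h2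

end Pool.Agent.Results.MP_dd077d_co.SolidSub
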